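import Pool.Agent.H95.QRange

set_option autoImplicit false

namespace Pool.Agent.Results.MP_16d611_an.SmallQ

/-- Mathlib's inner product is linear in the second argument, so `inner y x` is the
pairing of x with y that is linear in x. -/
theorem result (E : Type) [NormedAddCommGroup E] [InnerProductSpace ℂ E] [FiniteDimensional ℂ E]
    (hE : 2 ≤ Module.finrank ℂ E) (A : E →L[ℂ] E) (q : ℂ) (hq0 : 0 < ‖q‖)
    (hq : ‖q‖ ≤ 1 / Real.sqrt 2) (p : Polynomial ℂ) :
    ‖Polynomial.aeval A p‖ ≤ sSup {r : ℝ | ∃ x y : E, ‖x‖ = 1 ∧ ‖y‖ = 1 ∧ inner ℂ y x = q ∧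
      r = ‖p.eval (inner ℂ y (A x) / q)‖} := by
  refine Pool.Agent.H95.QRange.main hE A q (norm_pos_iff.1 hq0) ?_ p _ fun x y hx hy hxy => ?_
  · have := pow_le_pow_left₀ hq0.le hq 2
    rwa [div_pow, Real.sq_sqrt (by norm_num), one_pow] at this
  · refine le_csSup ?_ ⟨x, y, hx, hy, hxy, rfl⟩
    obtain ⟨C, hC⟩ := (isCompact_closedBall (0 : ℂ) (‖A‖ / ‖q‖)).exists_bound_of_continuousOn
      p.continuous.continuousOn
    refine ⟨C, ?_⟩
    rintro r ⟨x, y, hx, hy, -, rfl⟩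
    apply hC
    rw [mem_closedBall_zero_iff, norm_div]
    gcongr
    refine (norm_inner_le_norm _ _).trans ?_
    simpa [hx, hy] using A.le_opNorm x

end Pool.Agent.Results.MP_16d611_an.SmallQ
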